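import Pool.Agent.Q84.UF.LCrit

/-!
# Families of unirational subvarieties and the Hilbert property

Let `X` be a variety with dense `k`-points over a finitely generated field `k` of characteristic
zero, and let `f_i : X × 𝔸^(n_i) ⇢ X` be any number of families of unirational subvarieties through
the general point (`f_i (x, 0) = x`; for instance families of rational curves) without common
invariants. Then `X` has a cover `Y → X` with `Y` geometrically irreducible such that `Y` has the
Hilbert property, all the families lift to `Y` and `Y → X` is unramified over every prime divisor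
which the general member of one of the families meets with multiplicity one. If `X` has no covers
unramified in codimension one and every prime divisor of `X` is met in this way, then `X` has the
Hilbert property.
-/

set_option autoImplicit false

namespace Pool.Agent.Results.MP_87f965_ag.FamiliesLiftToCovers

open AlgebraicGeometry CategoryTheory W560.HP Pool.Agent.Y742.HC Pool.Agent.Q84.UF

theorem result (k : Type) [Field k] [CharZero k]
    (hk : ∃ S : Finset k, IntermediateField.adjoin ℚ (S : Set k) = ⊤)
    (K : Type) [Field K] [Algebra k K]
    (X : Scheme.{0}) (p : X ⟶ Spec (CommRingCat.of k)) [IsIntegral X] [LocallyOfFiniteType p]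
    (e : X.functionField ≃+* K) (he : ∀ a : k, e (toFF k X p a) = algebraMap k K a)
    (hd : DensePoints k X p) {I : Type} {n : I → ℕ}
    (φ : ∀ i, K →ₐ[k] RF (n i) K) (hφ : ∀ i, PMove (φ i))
    (hinv : ∀ c : K, (∀ i, φ i c = algebraMap K (RF (n i) K) c) →
      c ∈ Set.range (algebraMap k K)) :
    (∃ (M : Type) (_ : Field M) (_ : Algebra k M) (_ : Algebra K M) (_ : IsScalarTower k K M)
      (_ : FiniteDimensional K M),
      (∀ a : M, IsAlgebraic k a → a ∈ Set.range (algebraMap k M)) ∧
      (∀ i, Lifts (φ i) M) ∧
      (∀ P : FF.Place k K, (∃ i, Meets (φ i) P) → UnramifiedAt M P) ∧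
      (∀ (Y : Scheme.{0}) (q : Y ⟶ Spec (CommRingCat.of k)) [IsIntegral Y]
        [LocallyOfFiniteType q], (∃ g : Y.functionField ≃+* M,
          ∀ a : k, g (toFF k Y q a) = algebraMap k M a) → HilbertProperty k Y q) ∧
      (Function.Surjective (algebraMap K M) → HilbertProperty k X p)) ∧
    ((∀ P : FF.Place k K, PlaceOn k X e P → ∃ i, Meets (φ i) P) →
      (∀ (M : Type) [Field M] [Algebra k M] [Algebra K M] [IsScalarTower k K M]
        [FiniteDimensional K M], (∀ a : M, IsAlgebraic k a → a ∈ Set.range (algebraMap k M)) →
        (∀ P : FF.Place k K, PlaceOn k X e P → UnramifiedAt M P) →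
        Function.Surjective (algebraMap K M)) →
      HilbertProperty k X p ∧
      ((∀ x : X, IsIntegrallyClosed (X.presheaf.stalk x)) → HilbertPropertyIso k X p)) :=
  hilbL k hk K X p e he hd φ hφ hinv

end Pool.Agent.Results.MP_87f965_ag.FamiliesLiftToCovers
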