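import Pool.Agent.Q84.UF.HCrit
import Pool.Agent.Q84.UF.Quad

/-!
# The Hilbert property of varieties with fibrations of any fibre dimension

Let `X` be a variety with dense `k`-points over a finitely generated field `k` of characteristic
zero, and let `X ⇢ B_i` be any number of fibrations in quadrics of any dimension (or, more
generally, fibrations whose generic fibre has, over the function field `K` of `X`, a unirational
parametrization with geometrically irreducible fibres), such that only the constants come from all
the bases. Then `X` has the Hilbert property as soon as it has no covers which are pulled back from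
all the bases; in particular if every prime divisor of `X` dominates one of the bases and `X` has
no covers unramified in codimension one.
-/

set_option autoImplicit false

namespace Pool.Agent.Results.MP_87f965_ag.FibrationsOfAnyDimension

open AlgebraicGeometry CategoryTheory W560.HP Pool.Agent.Y742.HC Pool.Agent.Q84.UF

theorem result (k : Type) [Field k] [CharZero k]
    (hk : ∃ S : Finset k, IntermediateField.adjoin ℚ (S : Set k) = ⊤)
    (K : Type) [Field K] [Algebra k K]
    (X : Scheme.{0}) (p : X ⟶ Spec (CommRingCat.of k)) [IsIntegral X] [LocallyOfFiniteType p]
    (e : X.functionField ≃+* K) (he : ∀ a : k, e (toFF k X p a) = algebraMap k K a)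
    (hd : DensePoints k X p) {I : Type} (L : I → IntermediateField k K)
    (hL : ∀ i, QuadricOver (L i) K ∨ UniR (L i))
    (hinv : ∀ a : K, (∀ i, a ∈ L i) → a ∈ Set.range (algebraMap k K)) :
    ((∀ (M : Type) [Field M] [Algebra k M] [Algebra K M] [IsScalarTower k K M]
      [FiniteDimensional K M], (∀ a : M, IsAlgebraic k a → a ∈ Set.range (algebraMap k M)) →
      (∀ i, IntermediateField.adjoin K {z : M | IsAlgebraic (L i) z} = ⊤) →
      (∀ P : FF.Place k K, (∃ i, Horizontal (L i) P) → UnramifiedAt M P) →
      Function.Surjective (algebraMap K M)) →
      HilbertProperty k X p ∧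
      ((∀ x : X, IsIntegrallyClosed (X.presheaf.stalk x)) → HilbertPropertyIso k X p)) ∧
    ((∀ P : FF.Place k K, PlaceOn k X e P → ∃ i, Horizontal (L i) P) →
      (∀ (M : Type) [Field M] [Algebra k M] [Algebra K M] [IsScalarTower k K M]
        [FiniteDimensional K M], (∀ a : M, IsAlgebraic k a → a ∈ Set.range (algebraMap k M)) →
        (∀ P : FF.Place k K, PlaceOn k X e P → UnramifiedAt M P) →
        Function.Surjective (algebraMap K M)) →
      HilbertProperty k X p ∧
      ((∀ x : X, IsIntegrallyClosed (X.presheaf.stalk x)) → HilbertPropertyIso k X p)) :=
  (hilbR k hk K X p e he hd L (fun i => (hL i).elim (fun h => UniR.quadric h) id) hinv).2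

end Pool.Agent.Results.MP_87f965_ag.FibrationsOfAnyDimension
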