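import Pool.Agent.Results.MP_87f965_ag.RandomHypersurfaces
import Pool.Agent.Q319.WN.Form

/-!
# Rational points outside thin sets on ALL Fano hypersurfaces near the multiples and the dilates of almost every real one

Let `n ≥ 3` and `2 ≤ d ≤ n`. We consider integral forms `f` whose coefficients are close to those of the multiples `k F` or
of the dilates `v_k F` of a real form `F` of degree `d` in `n + 1` variables. A form `f` is good at the level `m` if `f = 0`
is not smooth or not everywhere locally soluble, or if there are rational points of `f = 0` within `1 / (m + 1)` of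
arbitrary points over the real numbers and over `ℚ_p`, `p ≤ m + 1`, and outside of all thin subsets of `ℙⁿ(ℚ)` of
complexity at most `m + 1`.

1. For all real `F` with coefficients at most `Y` outside a set of measure at most `ε Y ^ M` (`M` the number of
   coefficients) and 100% of the `k ≤ R` ALL integral forms whose coefficients are within `w` of those of `k F` are good at
   the level `m` (`Y` large in terms of `ε`, `w` and `m`; every `R`).
2. For every sequence `v_k → ∞` and almost every real `F` ALL integral forms within `w` of `v_k F` are good at the level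
   `m`, for 100% of the `k < K_j`, for a sequence `K_j → ∞` which does not depend on `F`, `w` and `m`.
3. If `v_k` increases fast enough then for almost every real `F` and all large `k` ALL integral forms whose coefficients
   are within `k` of those of `v_k F` are good at all levels `m ≤ k`.

From Mathlib: `volume`: the Lebesgue measure; `MvPolynomial`, `IsHomogeneous`. The statement for 100% of the hypersurfaces
is from the starting file `RandomHypersurfaces` (with the definitions of `Smooth`, `LocallySoluble` and
`ApproximationOutsideThinSets`). `poly`, `mons` are defined in `Pool.Agent.Q319.WN.Form`; `MultiplesVec`, `DilatesVec`,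
`FastDilatesVec` in `Pool.Agent.Q319.WN.Vec`.
-/

set_option autoImplicit false

namespace Pool.Agent.Results.MP_87f965_ag.FormsNearRealForms

open Filter Topology Pool.Agent.Q319.WN Pool.Agent.Results.MP_87f965_ag.RandomHypersurfaces

/-- `f = 0` is a smooth and everywhere locally soluble hypersurface for which weak approximation to precision `1 / (m + 1)`
by points outside the thin sets of complexity at most `m + 1` fails. -/
def Fails {n : ℕ} (m : ℕ) (f : MvPolynomial (Fin (n + 1)) ℤ) : Prop :=
  (Smooth f ∧ LocallySoluble f) ∧ ¬ ApproximationOutsideThinSets (m + 1) f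

lemma approx_mono {n : ℕ} {f : MvPolynomial (Fin (n + 1)) ℤ} {m M : ℕ} (hM : 1 ≤ M) (hm : M ≤ m)
    (h : ApproximationOutsideThinSets m f) : ApproximationOutsideThinSets M f := by
  intro z y hz hy hyf
  obtain ⟨x, hx0, hxf, hx1, hx2, hx3⟩ := h z y hz hy hyf
  have h0 : (0 : ℝ) < M := by exact_mod_cast hM
  have h1 : (M : ℝ) ≤ m := by exact_mod_cast hm
  refine ⟨x, hx0, hxf, fun p _ hp => ?_, ?_, fun P hP => hx3 P (bounded_mono hm hP)⟩
  · obtain ⟨c, hc, hc1⟩ := hx1 p (hp.trans hm)
    exact ⟨c, hc, fun i => (hc1 i).trans (div_le_div_of_nonneg_left (norm_nonneg _) h0 h1)⟩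
  · obtain ⟨c, hc, hc1⟩ := hx2
    exact ⟨c, hc, fun i => (hc1 i).trans (div_le_div_of_nonneg_left (norm_nonneg _) h0 h1)⟩

lemma fails_null (n d : ℕ) (hn : 3 ≤ n) (h2 : 2 ≤ d) (hd : d ≤ n) (M : ℕ) :
    NullBox (fun x : ↥(mons n d) → ℤ => Fails M (poly (mons n d) x)) := by
  have hfin : ∀ H, (Forms n d H).Finite := fun H => Pool.Agent.Y214.HB.fm_finite n d H
  obtain ⟨m, hm, hlim⟩ := (RandomHypersurfaces.result n d hn h2 hd).1
  have h : Tendsto (fun H : ℕ =>
        (({f | f ∈ Forms n d H ∧ Smooth f ∧ LocallySoluble f ∧
          ApproximationOutsideThinSets (M + 1) f} : Set _).ncard : ℝ) /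
        (({f | f ∈ Forms n d H ∧ Smooth f ∧ LocallySoluble f} : Set _).ncard : ℝ)) atTop (𝓝 1) := by
    refine tendsto_of_tendsto_of_tendsto_of_le_of_le' hlim tendsto_const_nhds ?_ ?_
    · filter_upwards [tendsto_atTop.mp hm (M + 1)] with H hH
      apply div_le_div_of_nonneg_right _ (Nat.cast_nonneg _)
      have hsub : {f | f ∈ Forms n d H ∧ Smooth f ∧ LocallySoluble f ∧
            ApproximationOutsideThinSets (m H) f} ⊆
          {f | f ∈ Forms n d H ∧ Smooth f ∧ LocallySoluble f ∧ ApproximationOutsideThinSets (M + 1) f} := by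
        rintro f ⟨hf, hs, hl, ha⟩
        exact ⟨hf, hs, hl, approx_mono (by omega) hH ha⟩
      exact_mod_cast Set.ncard_le_ncard hsub ((hfin H).subset (fun f hf => hf.1))
    · filter_upwards with H
      apply div_le_one_of_le₀ _ (Nat.cast_nonneg _)
      have hsub : {f | f ∈ Forms n d H ∧ Smooth f ∧ LocallySoluble f ∧ ApproximationOutsideThinSets (M + 1) f} ⊆
          {f | f ∈ Forms n d H ∧ Smooth f ∧ LocallySoluble f} :=
        fun f hf => ⟨hf.1, hf.2.1, hf.2.2.1⟩
      exact_mod_cast Set.ncard_le_ncard hsub ((hfin H).subset (fun f hf => hf.1))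
  refine null_of_ratio (A := fun x => Smooth (poly (mons n d) x) ∧ LocallySoluble (poly (mons n d) x))
    (B := fun x => ApproximationOutsideThinSets (M + 1) (poly (mons n d) x)) (h.congr fun H => ?_)
  have h1 := ncard_poly (mons n d) H (fun f => Smooth f ∧ LocallySoluble f)
  have h2 := ncard_poly (mons n d) H (fun f => (Smooth f ∧ LocallySoluble f) ∧ ApproximationOutsideThinSets (M + 1) f)
  rw [← h1, ← h2]
  have e1 : {f | f ∈ Forms n d H ∧ Smooth f ∧ LocallySoluble f ∧ ApproximationOutsideThinSets (M + 1) f} =
      {f : MvPolynomial (Fin (n + 1)) ℤ | (f.support ⊆ mons n d ∧ ∀ m, |f.coeff m| ≤ (H : ℤ)) ∧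
        (Smooth f ∧ LocallySoluble f) ∧ ApproximationOutsideThinSets (M + 1) f} := by
    ext f
    simp only [Forms, Set.mem_ofPred_eq, homog_iff, and_assoc]
  have e2 : {f | f ∈ Forms n d H ∧ Smooth f ∧ LocallySoluble f} =
      {f : MvPolynomial (Fin (n + 1)) ℤ | (f.support ⊆ mons n d ∧ ∀ m, |f.coeff m| ≤ (H : ℤ)) ∧
        Smooth f ∧ LocallySoluble f} := by
    ext f
    simp only [Forms, Set.mem_ofPred_eq, homog_iff, and_assoc]
  rw [e1, e2]

/-- Let `n ≥ 3` and `2 ≤ d ≤ n`. For integral forms of degree `d` in `n + 1` variables the failure of weak approximation to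
precision `1 / (m + 1)` by rational points outside the thin sets of complexity at most `m + 1` (`Fails m`) is
1. rare at the multiples `k F` of almost every real form `F`,
2. rare at the dilates `v k F`, for every sequence `v k → ∞` and almost every `F`,
3. absent within the distance `k` of `v k F` and for `m ≤ k`, for all large `k`, for every fast sequence `v k` and almost
   every `F` (see `MultiplesVec`, `DilatesVec` and `FastDilatesVec` for the precise statements). -/
theorem result (n d : ℕ) (hn : 3 ≤ n) (h2 : 2 ≤ d) (hd : d ≤ n) :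
    (∀ m, MultiplesVec (fun x : ↥(mons n d) → ℤ => Fails m (poly (mons n d) x))) ∧
      DilatesVec (fun m (x : ↥(mons n d) → ℤ) => Fails m (poly (mons n d) x)) ∧
      FastDilatesVec (fun m (x : ↥(mons n d) → ℤ) => Fails m (poly (mons n d) x)) :=
  null_all fun m => fails_null n d hn h2 hd m

end Pool.Agent.Results.MP_87f965_ag.FormsNearRealForms
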